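import Pool.Agent.H26.REM.Targets

/-!
# (BEX) bases of the points of a lattice in subspaces
-/

set_option autoImplicit false

namespace Pool.Agent.H52.REM

open Pool.Agent.H26.REM
open Finset InnerProductSpace

/-- a multiple of a rational combination of lattice points is a lattice point -/
theorem exists_mul_mem {V : Type} [AddCommGroup V] [Module ℚ V] (L : Submodule ℤ V) {y : V}
    (hy : y ∈ Submodule.span ℚ (L : Set V)) : ∃ n : ℤ, n ≠ 0 ∧ n • y ∈ L := by
  induction hy using Submodule.span_induction with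
  | mem x hx => exact ⟨1, one_ne_zero, by rw [one_smul]; exact hx⟩
  | zero => exact ⟨1, one_ne_zero, by rw [smul_zero]; exact L.zero_mem⟩
  | add x y _ _ hx hy =>
    obtain ⟨n, hn, hnx⟩ := hx
    obtain ⟨m, hm, hmy⟩ := hy
    refine ⟨n * m, mul_ne_zero hn hm, ?_⟩
    rw [smul_add]
    refine L.add_mem ?_ ?_
    · rw [mul_comm, mul_smul]
      exact L.smul_mem m hnx
    · rw [mul_smul]
      exact L.smul_mem n hmy
  | smul q x _ hx =>
    obtain ⟨n, hn, hnx⟩ := hx
    refine ⟨q.den * n, mul_ne_zero (by exact_mod_cast q.den_ne_zero) hn, ?_⟩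
    have h1 : ((q.den : ℤ) * n) • (q • x) = q.num • (n • x) := by
      rw [← Int.cast_smul_eq_zsmul ℚ ((q.den : ℤ) * n), ← Int.cast_smul_eq_zsmul ℚ q.num,
        ← Int.cast_smul_eq_zsmul ℚ n, smul_smul, smul_smul]
      congr 1
      have h2 : (q.den : ℚ) * q = q.num := by
        rw [mul_comm]
        exact Rat.mul_den_eq_num q
      push_cast
      rw [← h2]
      ring
    rw [h1]
    exact L.smul_mem _ hnx

theorem isBas_of {V ι : Type} [AddCommGroup V] [Module ℚ V] (L : Submodule ℤ V)
    (Z : Submodule ℚ V) (hZ : Z ≤ Submodule.span ℚ (L : Set V)) (z : ι → V)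
    (hz : LinearIndependent ℤ z)
    (hs : ∀ x : V, x ∈ Submodule.span ℤ (Set.range z) ↔ x ∈ L ∧ x ∈ Z) : IsBas L Z z := by
  refine ⟨(LinearIndependent.iff_fractionRing ℤ ℚ).1 hz, ?_, hs⟩
  apply le_antisymm
  · rw [Submodule.span_le]
    rintro _ ⟨i, rfl⟩
    exact ((hs (z i)).1 (Submodule.subset_span ⟨i, rfl⟩)).2
  · intro y hy
    obtain ⟨n, hn, hny⟩ := exists_mul_mem L (hZ hy)
    have h1 : n • y ∈ Z := by
      rw [← Int.cast_smul_eq_zsmul ℚ]
      exact Z.smul_mem _ hy
    have h2 := (hs (n • y)).2 ⟨hny, h1⟩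
    have h3 : n • y ∈ Submodule.span ℚ (Set.range z) :=
      Submodule.span_subset_span ℤ ℚ (Set.range z) h2
    have h4 : y = ((n : ℚ)⁻¹) • (n • y) := by
      rw [← Int.cast_smul_eq_zsmul ℚ, smul_smul, inv_mul_cancel₀ (by exact_mod_cast hn), one_smul]
    rw [h4]
    exact Submodule.smul_mem _ _ h3

theorem pf_BEX : T_BEX := by
  intro V _ _ _ L hL X U hXU hU
  classical
  set A : Submodule ℤ V := L ⊓ U.restrictScalars ℤ with hA
  have hfinL : Module.Finite ℤ L := Module.Finite.iff_fg.2 hL
  have hAFG : A.FG := Submodule.FG.of_le_of_isNoetherian (T := L) inf_le_left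
  have hfinA : Module.Finite ℤ A := Module.Finite.iff_fg.2 hAFG
  set B : Submodule ℤ A := (X.restrictScalars ℤ).comap A.subtype with hB
  have hsm : ∀ (n : ℤ) (y : V), n ≠ 0 → n • y ∈ X → y ∈ X := by
    intro n y hn hny
    have h4 : y = ((n : ℚ)⁻¹) • (n • y) := by
      rw [← Int.cast_smul_eq_zsmul ℚ, smul_smul, inv_mul_cancel₀ (by exact_mod_cast hn), one_smul]
    rw [h4]
    exact X.smul_mem _ hny
  have htf : Module.IsTorsionFree ℤ (A ⧸ B) := by
    refine Module.IsTorsionFree.of_smul_eq_zero ?_
    intro n q hq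
    induction q using Submodule.Quotient.induction_on with
    | H y =>
      by_cases hn : n = 0
      · exact Or.inl hn
      · right
        rw [← Submodule.Quotient.mk_smul, Submodule.Quotient.mk_eq_zero] at hq
        rw [Submodule.Quotient.mk_eq_zero]
        exact hsm n y hn hq
  have hVt : Module.IsTorsionFree ℤ V := by
    refine Module.IsTorsionFree.of_smul_eq_zero ?_
    intro n y hy
    by_cases hn : n = 0
    · exact Or.inl hn
    · right
      rw [← Int.cast_smul_eq_zsmul ℚ] at hy
      exact (smul_eq_zero.1 hy).resolve_left (by exact_mod_cast hn)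
  have hAfree : Module.Free ℤ A := inferInstance
  have hBfree : Module.Free ℤ B := inferInstance
  have hQfree : Module.Free ℤ (A ⧸ B) := inferInstance
  let bB : Module.Basis (Fin (Module.finrank ℤ B)) ℤ B := Module.finBasis ℤ B
  let bQ : Module.Basis (Fin (Module.finrank ℤ (A ⧸ B))) ℤ (A ⧸ B) := Module.finBasis ℤ (A ⧸ B)
  let bA := Module.Basis.sumQuot bB bQ
  let x : Fin (Module.finrank ℤ B) → V := fun i => ((bB i : A) : V)
  let u : Fin (Module.finrank ℤ (A ⧸ B)) → V := fun i => ((bA (Sum.inr i) : A) : V)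
  have hxu : Sum.elim x u = fun i => ((bA i : A) : V) := by
    funext i
    rcases i with i | i
    · show ((bB i : A) : V) = ((bA (Sum.inl i) : A) : V)
      rw [Module.Basis.sumQuot_inl]
    · rfl
  have hliA : LinearIndependent ℤ (Sum.elim x u) := by
    rw [hxu]
    exact bA.linearIndependent.map' A.subtype (Submodule.ker_subtype A)
  have hspA : Submodule.span ℤ (Set.range (Sum.elim x u)) = A := by
    rw [hxu]
    have h1 : Set.range (fun i => ((bA i : A) : V)) = A.subtype '' Set.range bA := by
      rw [← Set.range_comp]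
      rfl
    rw [h1, ← Submodule.map_span, bA.span_eq, Submodule.map_top, Submodule.range_subtype]
  have hliB : LinearIndependent ℤ x := by
    have h := bB.linearIndependent.map' B.subtype (Submodule.ker_subtype B)
    exact h.map' A.subtype (Submodule.ker_subtype A)
  have hspB : Submodule.span ℤ (Set.range x) = B.map A.subtype := by
    have h1 : Set.range x = A.subtype '' (B.subtype '' Set.range bB) := by
      rw [← Set.range_comp, ← Set.range_comp]
      rfl
    rw [h1, ← Submodule.map_span, ← Submodule.map_span, bB.span_eq, Submodule.map_top,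
      Submodule.range_subtype]
  refine ⟨_, _, x, u, isBas_of L X (hXU.trans hU) x hliB ?_, isBas_of L U hU _ hliA ?_⟩
  · intro y
    rw [hspB, Submodule.mem_map]
    constructor
    · rintro ⟨a, ha, rfl⟩
      exact ⟨a.2.1, ha⟩
    · rintro ⟨h1, h2⟩
      exact ⟨⟨y, h1, hXU h2⟩, h2, rfl⟩
  · intro y
    rw [hspA]
    exact Iff.rfl

end Pool.Agent.H52.REM
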