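import Pool.Agent.H52.REM.HAD

/-!
# (BLE) the Gram determinant of a basis is the smallest one
-/

set_option autoImplicit false

namespace Pool.Agent.H52.REM

open Pool.Agent.H26.REM
open Finset InnerProductSpace

theorem gd_equiv {E ι κ : Type} [NormedAddCommGroup E] [InnerProductSpace ℂ E] [Fintype ι]
    [DecidableEq ι] [Fintype κ] [DecidableEq κ] (σ : ι ≃ κ) (v : κ → E) :
    GD (fun i => v (σ i)) = GD v := by
  unfold GD
  have h2 : Matrix.gram ℂ (fun i => v (σ i)) = (Matrix.gram ℂ v).submatrix σ σ := by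
    ext i j
    rw [Matrix.gram_apply, Matrix.submatrix_apply, Matrix.gram_apply]
  rw [h2, Matrix.det_submatrix_equiv_self]

theorem gd_nonneg' {E ι : Type} [NormedAddCommGroup E] [InnerProductSpace ℂ E] [Fintype ι]
    [DecidableEq ι] (v : ι → E) : 0 ≤ GD v := norm_nonneg _

theorem one_le_norm_det {ι : Type} [Fintype ι] [DecidableEq ι] (A : Matrix ι ι ℤ)
    (hA : A.det ≠ 0) : 1 ≤ ‖(A.map (Int.cast : ℤ → ℂ)).det‖ := by
  have h1 : (A.map (Int.cast : ℤ → ℂ)).det = ((A.det : ℤ) : ℂ) := by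
    have := (Int.castRingHom ℂ).map_det A
    exact this.symm
  rw [h1, Complex.norm_intCast]
  have h2 : 1 ≤ |A.det| := Int.one_le_abs hA
  exact_mod_cast h2

theorem pf_BLE (hGCH : T_GCH) : T_BLE := by
  intro V E ι κ _ _ _ _ _ _ _ _ L U j z z' hz hz' hLU hcard
  obtain ⟨-, -, hzm⟩ := hz
  obtain ⟨σ⟩ := Fintype.card_eq.1 hcard
  have hex : ∀ i : ι, ∃ c : ι → ℤ, ∑ l, c l • z l = z' (σ.symm i) := fun i =>
    (Submodule.mem_span_range_iff_exists_fun ℤ).1 ((hzm _).2 (hLU _))
  choose c hc using hex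
  set A : Matrix ι ι ℤ := Matrix.of c with hA
  have hdet : A.det ≠ 0 := by
    intro h0
    obtain ⟨w, hw, hwA⟩ := Matrix.exists_vecMul_eq_zero_iff.2 h0
    have h1 : ∑ i, (w i : ℚ) • z' (σ.symm i) = 0 := by
      have h2 : ∀ i, (w i : ℚ) • z' (σ.symm i) = ∑ l, (w i * A i l) • z l := by
        intro i
        rw [← hc i, Int.cast_smul_eq_zsmul, Finset.smul_sum]
        refine Finset.sum_congr rfl fun l _ => ?_
        rw [smul_smul]
        rfl
      rw [Finset.sum_congr rfl fun i _ => h2 i, Finset.sum_comm]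
      refine Finset.sum_eq_zero fun l _ => ?_
      rw [← Finset.sum_smul]
      have h3 := congrFun hwA l
      have h4 : ∑ i, w i * A i l = 0 := h3
      rw [h4, zero_smul]
    have hli : LinearIndependent ℚ fun i => z' (σ.symm i) := hz'.comp _ σ.symm.injective
    have h2 := Fintype.linearIndependent_iff.1 hli (fun i => (w i : ℚ)) h1
    refine hw (funext fun i => ?_)
    have h3 := h2 i
    exact_mod_cast h3
  have h1 : GD (fun i => j (z' i)) = GD fun i => ∑ l, (A.map (Int.cast : ℤ → ℂ)) i l • j (z l) := by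
    rw [← gd_equiv σ.symm fun i => j (z' i)]
    congr 1
    funext i
    rw [← hc i, map_sum]
    refine Finset.sum_congr rfl fun l _ => ?_
    rw [map_zsmul]
    show c i l • j (z l) = ((c i l : ℤ) : ℂ) • j (z l)
    rw [Int.cast_smul_eq_zsmul]
  rw [h1, hGCH]
  have h2 := one_le_norm_det A hdet
  exact le_mul_of_one_le_left (gd_nonneg' _) (one_le_pow₀ h2)

end Pool.Agent.H52.REM
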