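import Pool.Agent.H26.REM.Targets

/-!
# (CGR) the Frobenius automorphism of a cyclotomic field
-/

set_option autoImplicit false

namespace Pool.Agent.H52.REM

open Pool.Agent.H26.REM
open NumberField Height Finset Polynomial

theorem frob_poly (p : ℕ) (hp : p.Prime) (f : ℤ[X]) :
    ∃ h : ℤ[X], f ^ p - expand ℤ p f = C (p : ℤ) * h := by
  have hfact : Fact p.Prime := ⟨hp⟩
  have h1 : (f ^ p - expand ℤ p f).map (Int.castRingHom (ZMod p)) = 0 := by
    rw [Polynomial.map_sub, Polynomial.map_pow, Polynomial.map_expand, ZMod.expand_card, sub_self]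
  have h2 : C (p : ℤ) ∣ f ^ p - expand ℤ p f := by
    rw [Polynomial.C_dvd_iff_dvd_coeff]
    intro i
    have h3 := congrArg (fun q => Polynomial.coeff q i) h1
    simp only [Polynomial.coeff_map, Polynomial.coeff_zero, eq_intCast] at h3
    exact (ZMod.intCast_zmod_eq_zero_iff_dvd _ p).1 h3
  exact h2

theorem pf_CGR : T_CGR := by
  intro M _ _ m ζ hm hζ p hp hpm
  have hm' : NeZero m := ⟨hm.ne'⟩
  have hcyc : IsCyclotomicExtension {m} ℚ (IntermediateField.adjoin ℚ {ζ}) :=
    hζ.intermediateField_adjoin_isCyclotomicExtension ℚ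
  have hirr : Irreducible (cyclotomic m ℚ) := cyclotomic.irreducible_rat hm
  set z : IntermediateField.adjoin ℚ {ζ} := IsCyclotomicExtension.zeta m ℚ _ with hzdef
  have hz : IsPrimitiveRoot z m := IsCyclotomicExtension.zeta_spec m ℚ _
  have hcop : Nat.Coprime p m := (Nat.Prime.coprime_iff_not_dvd hp).2 hpm
  have hzp : IsPrimitiveRoot (z ^ p) m := hz.pow_of_coprime p hcop
  let φ : IntermediateField.adjoin ℚ {ζ} ≃ₐ[ℚ] IntermediateField.adjoin ℚ {ζ} :=
    IsCyclotomicExtension.fromZetaAut hzp hirr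
  have hφ : φ z = z ^ p := IsCyclotomicExtension.fromZetaAut_spec hzp hirr
  refine ⟨φ.toRingEquiv, fun c => ?_⟩
  have hint := IsCyclotomicExtension.Rat.isIntegralClosure_adjoin_singleton hz
  obtain ⟨y, hy⟩ := hint.isIntegral_iff.1 c.2
  obtain ⟨y, hy2⟩ := y
  have hy3 : y ∈ (aeval (R := ℤ) z).range := by
    rw [← Algebra.adjoin_singleton_eq_range_aeval]
    exact hy2
  obtain ⟨f, hf⟩ := hy3
  have hc : (c : IntermediateField.adjoin ℚ {ζ}) = aeval z f :=
    Eq.trans (show (c : IntermediateField.adjoin ℚ {ζ}) = y from hy.symm)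
      (show y = aeval z f from hf.symm)
  obtain ⟨h, hh⟩ := frob_poly p hp f
  have hzint : IsIntegral ℤ z := hz.isIntegral hm
  have hdint : IsIntegral ℤ (-aeval z h) := by
    refine IsIntegral.neg ?_
    have h1 : aeval z h ∈ Algebra.adjoin ℤ {z} := by
      rw [Algebra.adjoin_singleton_eq_range_aeval]
      exact ⟨h, rfl⟩
    exact (IsIntegral.of_mem_of_fg _ hzint.fg_adjoin_singleton _ h1)
  refine ⟨⟨-aeval z h, hdint⟩, ?_⟩
  show φ (c : IntermediateField.adjoin ℚ {ζ}) = (c : IntermediateField.adjoin ℚ {ζ}) ^ p +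
    (p : IntermediateField.adjoin ℚ {ζ}) * (-aeval z h)
  have h1 : φ (aeval z f) = aeval (z ^ p) f := by
    have h2 := (Polynomial.aeval_algHom_apply (φ : IntermediateField.adjoin ℚ {ζ} →+*
      IntermediateField.adjoin ℚ {ζ}).toIntAlgHom z f).symm
    have h3 : (φ : IntermediateField.adjoin ℚ {ζ} →+*
      IntermediateField.adjoin ℚ {ζ}).toIntAlgHom z = z ^ p := hφ
    rw [h3] at h2
    exact h2
  have h3 := congrArg (fun q => aeval z q) hh
  simp only [map_sub, map_pow, expand_aeval, map_mul, aeval_C] at h3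
  have h4 : (algebraMap ℤ (IntermediateField.adjoin ℚ {ζ})) (p : ℤ) =
      (p : IntermediateField.adjoin ℚ {ζ}) := by simp
  rw [h4] at h3
  rw [hc, h1]
  linear_combination (-1) * h3

end Pool.Agent.H52.REM
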