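import Pool.Agent.H26.REM.Targets4

/-!
# (DSC) the discriminant of the level field is as large as possible
-/

set_option autoImplicit false

namespace Pool.Agent.H52.REM

open Pool.Agent.H26.REM
open NumberField Height Finset Polynomial

theorem pf_DSC (hDSK : T_DSK) (hCYD : T_CYD) (hGSP : T_GSP) : T_DSC := by
  intro M _ _ r m a N ζ θ hL htop
  have h1 := hDSK (IntermediateField.adjoin ℚ {ζ}) M r a N θ hL.nz hL.N0 hL.pow hL.cop (by
    intro i q hq hqN
    refine ⟨hL.good i q hq hqN, hCYD M m ζ hL.m0 hL.prim q hq ?_⟩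
    intro hqm
    have h2 : q ∣ Nat.gcd m (N i) := Nat.dvd_gcd hqm hqN
    rw [Nat.Coprime.gcd_eq_one (hL.copm i)] at h2
    exact hq.one_lt.ne' (Nat.dvd_one.1 h2))
  refine le_trans (mul_le_mul_of_nonneg_left ?_ (by positivity)) h1
  refine pow_le_pow_left₀ (by positivity) ?_ _
  have h2 := (hGSP M r m a N ζ θ hL htop).2
  have h3 : ((Module.finrank (IntermediateField.adjoin ℚ {ζ}) M : ℕ) : ℝ) ≤
      ((∏ i, N i : ℕ) : ℝ) := by exact_mod_cast h2
  refine h3.trans (le_of_eq ?_)
  push_cast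
  rfl

end Pool.Agent.H52.REM
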