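import Pool.Agent.H52.REM.HAD

/-!
# (FIB) the Gram determinant of a family of products splits over the fibres
-/

set_option autoImplicit false

namespace Pool.Agent.H52.REM

open Pool.Agent.H26.REM
open Finset InnerProductSpace

open scoped Kronecker

/-- Hadamard's inequality for an arbitrary index type -/
theorem had_of_equiv (hHAD : T_HAD) {E ι : Type} [NormedAddCommGroup E] [InnerProductSpace ℂ E]
    [Fintype ι] [DecidableEq ι] {k : ℕ} (e : ι ≃ Fin k) (v : ι → E) : GD v ≤ ∏ i, ‖v i‖ ^ 2 := by
  have h := hHAD E k (fun i => v (e.symm i))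
  have h1 : GD (fun i => v (e.symm i)) = GD v := by
    unfold GD
    have h2 : Matrix.gram ℂ (fun i => v (e.symm i)) =
        (Matrix.gram ℂ v).submatrix e.symm e.symm := by
      ext i j
      rw [Matrix.gram_apply, Matrix.submatrix_apply, Matrix.gram_apply]
    rw [h2, Matrix.det_submatrix_equiv_self]
  rw [h1] at h
  refine h.trans (le_of_eq ?_)
  exact Equiv.prod_comp e.symm fun i => ‖v i‖ ^ 2

theorem pf_FIB (hHAD : T_HAD) (hGCH : T_GCH) : T_FIB := by
  intro X Tau _ _ _ π g r N0 e a v hv hN
  classical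
  let u : Fin g × Fin r → EuclideanSpace ℂ X := fun l =>
    WithLp.toLp 2 fun x => if π x = e l.1 then v l.2 x else 0
  set A : Matrix (Fin g) (Fin g) ℂ := Matrix.of fun k l : Fin g => a k (e l) with hA
  have hF : (fun l : Fin g × Fin r =>
      (WithLp.toLp 2 fun x => a l.1 (π x) * v l.2 x : EuclideanSpace ℂ X)) =
      fun k => ∑ l, (A ⊗ₖ (1 : Matrix (Fin r) (Fin r) ℂ)) k l • u l := by
    funext k
    obtain ⟨k, j⟩ := k
    ext x
    rw [WithLp.ofLp_sum, Finset.sum_apply]
    rw [Fintype.sum_prod_type]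
    have h1 : ∀ l : Fin g, ∑ i : Fin r, ((A ⊗ₖ (1 : Matrix (Fin r) (Fin r) ℂ)) (k, j) (l, i) •
        u (l, i)).ofLp x = a k (e l) * (if π x = e l then v j x else 0) := by
      intro l
      rw [Finset.sum_eq_single j]
      · rw [Matrix.kroneckerMap_apply, Matrix.one_apply_eq, mul_one]
        rfl
      · intro i _ hi
        rw [Matrix.kroneckerMap_apply, Matrix.one_apply_ne (Ne.symm hi), mul_zero, zero_smul]
        rfl
      · intro h
        exact absurd (Finset.mem_univ j) h
    rw [Finset.sum_congr rfl fun l _ => h1 l]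
    rw [Finset.sum_eq_single (e.symm (π x))]
    · rw [if_pos (by rw [Equiv.apply_symm_apply]), Equiv.apply_symm_apply]
    · intro l _ hl
      rw [if_neg, mul_zero]
      intro h
      exact hl (by rw [h, Equiv.symm_apply_apply])
    · intro h
      exact absurd (Finset.mem_univ _) h
  rw [hF, hGCH, Matrix.det_kronecker, Matrix.det_one, one_pow, mul_one, Fintype.card_fin, norm_pow,
    ← pow_mul, mul_comm r 2]
  refine mul_le_mul_of_nonneg_left ?_ (by positivity)
  refine (had_of_equiv hHAD finProdFinEquiv u).trans ?_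
  have hu : ∀ l : Fin g × Fin r, ‖u l‖ ^ 2 ≤ (N0 : ℝ) := by
    intro l
    rw [EuclideanSpace.norm_sq_eq]
    have h1 : ∀ x, ‖(u l).ofLp x‖ ^ 2 ≤ if π x = e l.1 then (1 : ℝ) else 0 := by
      intro x
      show ‖(if π x = e l.1 then v l.2 x else 0)‖ ^ 2 ≤ _
      split_ifs with hx
      · have := hv l.2 x
        have h0 := norm_nonneg (v l.2 x)
        nlinarith
      · simp
    refine (Finset.sum_le_sum fun x _ => h1 x).trans ?_
    rw [← Finset.sum_filter, Finset.sum_const, nsmul_eq_mul, mul_one]
    have h2 := hN (e l.1)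
    rw [Nat.card_eq_fintype_card, Fintype.card_subtype] at h2
    exact_mod_cast h2
  refine (Finset.prod_le_prod (fun l _ => by positivity) fun l _ => hu l).trans (le_of_eq ?_)
  rw [Finset.prod_const, Finset.card_univ, Fintype.card_prod, Fintype.card_fin, Fintype.card_fin]

end Pool.Agent.H52.REM
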