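import Pool.Agent.H52.REM.HAD

/-!
# (GQ) the Gram determinant of a quotient decreases under maps of norm at most one
-/

set_option autoImplicit false

namespace Pool.Agent.H52.REM

open Pool.Agent.H26.REM
open Finset InnerProductSpace

theorem gd_nonneg {E ι : Type} [NormedAddCommGroup E] [InnerProductSpace ℂ E] [Fintype ι]
    [DecidableEq ι] (v : ι → E) : 0 ≤ GD v := norm_nonneg _

/-- an explicit combination for an element of a span -/
theorem exists_comb {E : Type} [NormedAddCommGroup E] [InnerProductSpace ℂ E] {a : ℕ}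
    {v : Fin a → E} {x : E} (hx : x ∈ Submodule.span ℂ (Set.range v)) :
    ∃ c : Fin a → ℂ, ∑ i, c i • v i = x := (Submodule.mem_span_range_iff_exists_fun ℂ).1 hx

/-- Schur's formula for orthogonal families -/
theorem schur {E : Type} [NormedAddCommGroup E] [InnerProductSpace ℂ E] (hGCH : T_GCH) {a b : ℕ}
    (v : Fin a → E) (u w : Fin b → E)
    (hw : ∀ i j, inner ℂ (v i) (w j) = 0)
    (huw : ∀ j, u j - w j ∈ Submodule.span ℂ (Set.range v)) :
    GD (Sum.elim v u) = GD v * GD w := by
  have hex : ∀ j, ∃ c : Fin a → ℂ, ∑ i, c i • v i = u j - w j := fun j => exists_comb (huw j)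
  choose c hc using hex
  set C : Matrix (Fin b) (Fin a) ℂ := Matrix.of c with hC
  have h1 : Sum.elim v u = fun i => ∑ l, (Matrix.fromBlocks 1 0 C 1) i l • (Sum.elim v w) l := by
    funext i
    rw [Fintype.sum_sum_type]
    rcases i with i | j
    · simp only [Sum.elim_inl, Matrix.fromBlocks_apply₁₁, Matrix.fromBlocks_apply₁₂,
        Matrix.zero_apply, zero_smul, Finset.sum_const_zero, add_zero]
      rw [Finset.sum_eq_single i]
      · rw [Matrix.one_apply_eq, one_smul]
      · intro l _ hl
        rw [Matrix.one_apply_ne (Ne.symm hl), zero_smul]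
      · intro h
        exact absurd (Finset.mem_univ i) h
    · simp only [Sum.elim_inl, Sum.elim_inr, Matrix.fromBlocks_apply₂₁, Matrix.fromBlocks_apply₂₂]
      have h2 : ∑ x : Fin b, (1 : Matrix (Fin b) (Fin b) ℂ) j x • w x = w j := by
        rw [Finset.sum_eq_single j]
        · rw [Matrix.one_apply_eq, one_smul]
        · intro l _ hl
          rw [Matrix.one_apply_ne (Ne.symm hl), zero_smul]
        · intro h
          exact absurd (Finset.mem_univ j) h
      rw [h2]
      have h3 : ∑ x : Fin a, C j x • v x = u j - w j := hc j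
      rw [h3, sub_add_cancel]
  have h2 : Matrix.gram ℂ (Sum.elim v w) =
      Matrix.fromBlocks (Matrix.gram ℂ v) 0 0 (Matrix.gram ℂ w) := by
    ext i j
    rcases i with i | i <;> rcases j with j | j
    · rfl
    · exact hw i j
    · have h4 : inner ℂ (w i) (v j) = (starRingEnd ℂ) (inner ℂ (v j) (w i)) :=
        (inner_conj_symm (w i) (v j)).symm
      show inner ℂ (w i) (v j) = 0
      rw [h4, hw j i, map_zero]
    · rfl
  rw [h1, hGCH, Matrix.det_fromBlocks_zero₁₂, Matrix.det_one, Matrix.det_one, mul_one, norm_one,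
    one_pow, one_mul]
  unfold GD
  rw [h2, Matrix.det_fromBlocks_zero₂₁, norm_mul]

/-- maps of norm at most one decrease Gram determinants -/
theorem gd_map_le (hHAD : T_HAD) (hGCH : T_GCH) {E E' : Type} [NormedAddCommGroup E]
    [InnerProductSpace ℂ E] [NormedAddCommGroup E'] [InnerProductSpace ℂ E'] {b : ℕ}
    (w : Fin b → E) (hw : LinearIndependent ℂ w) (S : E →ₗ[ℂ] E') (hS : ∀ x, ‖S x‖ ≤ ‖x‖) :
    GD (fun i => S (w i)) ≤ GD w := by
  set W : Submodule ℂ E := Submodule.span ℂ (Set.range w) with hW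
  have hfd : FiniteDimensional ℂ W := FiniteDimensional.span_of_finite ℂ (Set.finite_range w)
  have hfr : Module.finrank ℂ W = b := by
    rw [hW, finrank_span_eq_card hw, Fintype.card_fin]
  let e : OrthonormalBasis (Fin b) ℂ W := (stdOrthonormalBasis ℂ W).reindex (finCongr hfr)
  let w' : Fin b → W := fun i => ⟨w i, Submodule.subset_span ⟨i, rfl⟩⟩
  set C : Matrix (Fin b) (Fin b) ℂ := Matrix.of fun j i => e.repr (w' j) i with hC
  have hwC : ∀ j, w j = ∑ i, C j i • (e i : E) := by
    intro j
    have h1 := congrArg (fun z : W => (z : E)) (e.sum_repr (w' j))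
    simp only [Submodule.coe_sum, Submodule.coe_smul] at h1
    exact h1.symm
  have hGe : GD (fun i => (e i : E)) = 1 := by
    unfold GD
    rw [gram_coe W (fun i => e i), Matrix.gram_eq_one_iff_orthonormal.2 e.orthonormal,
      Matrix.det_one, norm_one]
  have h1 : GD w = ‖C.det‖ ^ 2 := by
    have h2 : w = fun j => ∑ i, C j i • (e i : E) := funext hwC
    rw [h2, hGCH, hGe, mul_one]
  have h2 : GD (fun i => S (w i)) = ‖C.det‖ ^ 2 * GD (fun i => S (e i : E)) := by
    rw [← hGCH]
    congr 1
    funext j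
    rw [hwC j, map_sum]
    refine Finset.sum_congr rfl fun i _ => ?_
    rw [map_smul]
  rw [h1, h2]
  have h3 : GD (fun i => S (e i : E)) ≤ 1 := by
    refine (hHAD E' b _).trans (Finset.prod_le_one (fun i _ => by positivity) fun i _ => ?_)
    have h4 : ‖S (e i : E)‖ ≤ 1 := by
      refine (hS _).trans (le_of_eq ?_)
      exact e.norm_eq_one i
    exact pow_le_one₀ (norm_nonneg _) h4
  calc ‖C.det‖ ^ 2 * GD (fun i => S (e i : E)) ≤ ‖C.det‖ ^ 2 * 1 :=
        mul_le_mul_of_nonneg_left h3 (by positivity)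
    _ = _ := mul_one _

theorem pf_GQ (hHAD : T_HAD) (hGCH : T_GCH) : T_GQ := by
  intro E E' _ _ _ _ a b a' v u v' u' T A hvu _ hT hTv hA hTu
  set F : Submodule ℂ E := Submodule.span ℂ (Set.range v) with hF
  set F' : Submodule ℂ E' := Submodule.span ℂ (Set.range v') with hF'
  have hfd : FiniteDimensional ℂ F := FiniteDimensional.span_of_finite ℂ (Set.finite_range v)
  have hfd' : FiniteDimensional ℂ F' := FiniteDimensional.span_of_finite ℂ (Set.finite_range v')
  let P : E →ₗ[ℂ] E := LinearMap.id - (F.starProjection : E →ₗ[ℂ] E)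
  let P' : E' →ₗ[ℂ] E' := LinearMap.id - (F'.starProjection : E' →ₗ[ℂ] E')
  have hP : ∀ x, P x = x - F.starProjection x := fun x => rfl
  have hP' : ∀ x, P' x = x - F'.starProjection x := fun x => rfl
  have hPo : ∀ x, P x ∈ Fᗮ := fun x => Submodule.sub_starProjection_mem_orthogonal x
  have hPo' : ∀ x, P' x ∈ F'ᗮ := fun x => Submodule.sub_starProjection_mem_orthogonal x
  have hPd : ∀ x, x - P x ∈ F := by
    intro x
    rw [hP, sub_sub_cancel]
    exact Submodule.starProjection_apply_mem F x
  have hPd' : ∀ x, x - P' x ∈ F' := by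
    intro x
    rw [hP', sub_sub_cancel]
    exact Submodule.starProjection_apply_mem F' x
  have hP0' : ∀ x ∈ F', P' x = 0 := by
    intro x hx
    rw [hP', Submodule.starProjection_eq_self_iff.2 hx, sub_self]
  have hPn' : ∀ x, ‖P' x‖ ≤ ‖x‖ := by
    intro x
    have h1 : x = P' x + F'.starProjection x := by rw [hP', sub_add_cancel]
    have h2 : inner ℂ (P' x) (F'.starProjection x) = 0 :=
      (Submodule.mem_orthogonal' F' (P' x)).1 (hPo' x) _ (Submodule.starProjection_apply_mem F' x)
    have h3 : ‖x‖ * ‖x‖ = ‖P' x‖ * ‖P' x‖ + ‖F'.starProjection x‖ * ‖F'.starProjection x‖ := by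
      conv_lhs => rw [h1]
      exact norm_add_sq_eq_norm_sq_add_norm_sq_of_inner_eq_zero _ _ h2
    nlinarith [norm_nonneg x, norm_nonneg (P' x), mul_self_nonneg ‖F'.starProjection x‖]
  have horth : ∀ i j, inner ℂ (v i) (P (u j)) = 0 := fun i j =>
    (Submodule.mem_orthogonal F (P (u j))).1 (hPo (u j)) _ (Submodule.subset_span ⟨i, rfl⟩)
  have horth' : ∀ i j, inner ℂ (v' i) (P' (u' j)) = 0 := fun i j =>
    (Submodule.mem_orthogonal F' (P' (u' j))).1 (hPo' (u' j)) _ (Submodule.subset_span ⟨i, rfl⟩)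
  have hS1 : GD (Sum.elim v u) = GD v * GD (fun j => P (u j)) :=
    schur hGCH v u (fun j => P (u j)) horth fun j => hPd (u j)
  have hS2 : GD (Sum.elim v' u') = GD v' * GD (fun j => P' (u' j)) :=
    schur hGCH v' u' (fun j => P' (u' j)) horth' fun j => hPd' (u' j)
  -- the vectors `P (u j)` are linearly independent
  have hPu : LinearIndependent ℂ fun j => P (u j) := by
    have h1 : LinearIndependent ℂ (Sum.elim v fun j => P (u j)) := by
      refine Matrix.linearIndependent_of_det_gram_ne_zero ?_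
      intro h0
      have h2 : GD (Sum.elim v fun j => P (u j)) = 0 := by
        unfold GD
        rw [h0, norm_zero]
      have h3 : GD (Sum.elim v fun j => P (u j)) = GD v * GD (fun j => P (u j)) :=
        schur hGCH v (fun j => P (u j)) (fun j => P (u j)) horth fun j => by
          rw [sub_self]
          exact Submodule.zero_mem _
      rw [h3, ← hS1] at h2
      exact Matrix.det_gram_ne_zero_iff_linearIndependent.2 hvu (norm_eq_zero.1 h2)
    exact (linearIndependent_sum.1 h1).2.1
  -- the images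
  have hPT : ∀ j, P' (T (u j)) = ∑ l, A j l • P' (u' l) := by
    intro j
    have h1 := hP0' _ (hTu j)
    rw [map_sub, map_sum, sub_eq_zero] at h1
    rw [h1]
    refine Finset.sum_congr rfl fun l _ => ?_
    rw [map_smul]
  have hTF : ∀ x ∈ F, T x ∈ F' := by
    intro x hx
    have h1 : F ≤ F'.comap T := by
      rw [hF, Submodule.span_le]
      rintro _ ⟨i, rfl⟩
      exact hTv i
    exact h1 hx
  have hPT2 : ∀ j, P' (T (u j)) = P' (T (P (u j))) := by
    intro j
    have h1 := hP0' _ (hTF _ (hPd (u j)))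
    rw [map_sub, map_sub, sub_eq_zero] at h1
    exact h1
  have h1 : GD (fun j => P' (T (u j))) = ‖A.det‖ ^ 2 * GD (fun j => P' (u' j)) := by
    rw [← hGCH]
    congr 1
    funext j
    exact hPT j
  have h2 : GD (fun j => P' (T (u j))) ≤ GD (fun j => P (u j)) := by
    have h3 : (fun j => P' (T (u j))) = fun j => (P' ∘ₗ T) (P (u j)) := funext hPT2
    rw [h3]
    exact gd_map_le hHAD hGCH (fun j => P (u j)) hPu (P' ∘ₗ T) fun x => (hPn' _).trans (hT x)
  have h3 : GD (fun j => P' (u' j)) ≤ GD (fun j => P (u j)) := by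
    refine le_trans ?_ h2
    rw [h1]
    exact le_mul_of_one_le_left (gd_nonneg _) (one_le_pow₀ hA)
  rw [hS1, hS2]
  have h4 : 0 ≤ GD v * GD v' := mul_nonneg (gd_nonneg _) (gd_nonneg _)
  calc GD v' * GD (fun j => P' (u' j)) * GD v = (GD v * GD v') * GD (fun j => P' (u' j)) := by ring
    _ ≤ (GD v * GD v') * GD (fun j => P (u j)) := mul_le_mul_of_nonneg_left h3 h4
    _ = _ := by ring

end Pool.Agent.H52.REM
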