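import Pool.Agent.H26.REM.Targets

/-!
# (GSP) the small monomials span
-/

set_option autoImplicit false

namespace Pool.Agent.H52.REM

open Pool.Agent.H26.REM
open NumberField Height Finset Polynomial

/-- a rational subspace which contains `1` and is stable under multiplication by the elements of
`T` contains the algebra generated by `T` -/
theorem adjoin_le_of_stable {M : Type} [Field M] [NumberField M] (R : Submodule ℚ M) (T : Set M)
    (h1 : (1 : M) ∈ R) (hT : ∀ t ∈ T, ∀ y ∈ R, t * y ∈ R) (x : M) (hx : x ∈ Algebra.adjoin ℚ T) :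
    x ∈ R := by
  have h : ∀ y ∈ R, x * y ∈ R := by
    induction hx using Algebra.adjoin_induction with
    | mem t ht => exact hT t ht
    | algebraMap q =>
      intro y hy
      rw [← Algebra.smul_def]
      exact R.smul_mem q hy
    | add a b _ _ ha hb =>
      intro y hy
      rw [add_mul]
      exact R.add_mem (ha y hy) (hb y hy)
    | mul a b _ _ ha hb =>
      intro y hy
      rw [mul_assoc]
      exact ha _ (hb y hy)
  have h2 := h 1 h1
  rwa [mul_one] at h2

theorem stable_of_gens {M ι : Type} [Field M] [NumberField M] (f : ι → M) (t : M)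
    (h : ∀ i, t * f i ∈ Submodule.span ℚ (Set.range f)) :
    ∀ y ∈ Submodule.span ℚ (Set.range f), t * y ∈ Submodule.span ℚ (Set.range f) := by
  intro y hy
  induction hy using Submodule.span_induction with
  | mem x hx =>
    obtain ⟨i, rfl⟩ := hx
    exact h i
  | zero =>
    rw [mul_zero]
    exact Submodule.zero_mem _
  | add a b _ _ ha hb =>
    rw [mul_add]
    exact Submodule.add_mem _ ha hb
  | smul q a _ ha =>
    rw [mul_smul_comm]
    exact Submodule.smul_mem _ q ha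

theorem pf_GSP : T_GSP := by
  intro M _ _ r m a N ζ θ hL htop
  classical
  have hm : 0 < m := hL.m0
  have hN : ∀ i, 0 < N i := hL.N0
  set f : Fin m × (∀ i, Fin (N i)) → M := fun j => ζ ^ (j.1 : ℕ) * ∏ i, θ i ^ (j.2 i : ℕ) with hf
  set R : Submodule ℚ M := Submodule.span ℚ (Set.range f) with hR
  have h1 : (1 : M) ∈ R := by
    refine Submodule.subset_span ⟨(⟨0, hm⟩, fun i => ⟨0, hN i⟩), ?_⟩
    simp [hf]
  have hζ : ∀ y ∈ R, ζ * y ∈ R := by
    refine stable_of_gens f ζ ?_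
    rintro ⟨j, l⟩
    by_cases hj : (j : ℕ) + 1 < m
    · refine Submodule.subset_span ⟨(⟨(j : ℕ) + 1, hj⟩, l), ?_⟩
      show ζ ^ ((j : ℕ) + 1) * ∏ i, θ i ^ (l i : ℕ) = ζ * (ζ ^ (j : ℕ) * ∏ i, θ i ^ (l i : ℕ))
      rw [pow_succ]
      ring
    · refine Submodule.subset_span ⟨(⟨0, hm⟩, l), ?_⟩
      show ζ ^ 0 * ∏ i, θ i ^ (l i : ℕ) = ζ * (ζ ^ (j : ℕ) * ∏ i, θ i ^ (l i : ℕ))
      have h2 : (j : ℕ) + 1 = m := by
        have := j.isLt
        omega
      have h3 : ζ * ζ ^ (j : ℕ) = 1 := by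
        rw [← pow_succ', h2]
        exact hL.prim.pow_eq_one
      rw [← mul_assoc, h3, pow_zero]
  have hθ : ∀ i, ∀ y ∈ R, θ i * y ∈ R := by
    intro i
    refine stable_of_gens f (θ i) ?_
    rintro ⟨j, l⟩
    have hsplit : ∀ l' : ∀ i, Fin (N i), (∀ i' , i' ≠ i → l' i' = l i') →
        ∏ i', θ i' ^ (l' i' : ℕ) = θ i ^ (l' i : ℕ) * ∏ i' ∈ Finset.univ.erase i, θ i' ^ (l i' : ℕ) := by
      intro l' hl'
      rw [← Finset.mul_prod_erase Finset.univ _ (Finset.mem_univ i)]
      congr 1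
      refine Finset.prod_congr rfl fun i' hi' => ?_
      rw [hl' i' (Finset.ne_of_mem_erase hi')]
    have hl0 := hsplit l fun _ _ => rfl
    by_cases hli : (l i : ℕ) + 1 < N i
    · refine Submodule.subset_span ⟨(j, Function.update l i ⟨(l i : ℕ) + 1, hli⟩), ?_⟩
      show ζ ^ (j : ℕ) * ∏ i', θ i' ^ ((Function.update l i ⟨(l i : ℕ) + 1, hli⟩) i' : ℕ) =
        θ i * (ζ ^ (j : ℕ) * ∏ i', θ i' ^ (l i' : ℕ))
      rw [hsplit _ fun i' hi' => Function.update_of_ne hi' _ _, hl0, Function.update_self]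
      show ζ ^ (j : ℕ) * (θ i ^ ((l i : ℕ) + 1) * _) = _
      rw [pow_succ]
      ring
    · have h2 : (l i : ℕ) + 1 = N i := by
        have := (l i).isLt
        omega
      have h3 : θ i * (ζ ^ (j : ℕ) * ∏ i', θ i' ^ (l i' : ℕ)) =
          (a i) • f (j, Function.update l i ⟨0, hN i⟩) := by
        show _ = (a i) • (ζ ^ (j : ℕ) * ∏ i', θ i' ^ ((Function.update l i ⟨0, hN i⟩) i' : ℕ))
        rw [hsplit (Function.update l i ⟨0, hN i⟩) fun i' hi' => Function.update_of_ne hi' _ _, hl0,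
          Function.update_self]
        have h4 : θ i * θ i ^ (l i : ℕ) = ((a i : ℚ) : M) := by
          rw [← pow_succ', h2]
          exact hL.pow i
        rw [Rat.smul_def]
        show _ = ((a i : ℚ) : M) * (ζ ^ (j : ℕ) * (θ i ^ 0 * _))
        rw [← h4, pow_zero]
        ring
      show θ i * (ζ ^ (j : ℕ) * ∏ i', θ i' ^ (l i' : ℕ)) ∈ R
      rw [h3]
      exact R.smul_mem _ (Submodule.subset_span ⟨_, rfl⟩)
  have hRtop : R = ⊤ := by
    rw [eq_top_iff]
    intro x _
    refine adjoin_le_of_stable R (insert ζ (Set.range θ)) h1 ?_ x ?_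
    · rintro t (rfl | ⟨i, rfl⟩)
      · exact hζ
      · exact hθ i
    · rw [← IntermediateField.adjoin_toSubalgebra, htop]
      exact trivial
  refine ⟨hRtop, ?_⟩
  let K := IntermediateField.adjoin ℚ {ζ}
  let zK : K := ⟨ζ, IntermediateField.mem_adjoin_simple_self ℚ ζ⟩
  have hspan : ⊤ ≤ Submodule.span K (Set.range fun l : ∀ i, Fin (N i) => ∏ i, θ i ^ (l i : ℕ)) := by
    intro x _
    have hx : x ∈ R := by
      rw [hRtop]
      exact trivial
    have hle : R ≤ (Submodule.span K (Set.range fun l : ∀ i, Fin (N i) =>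
        ∏ i, θ i ^ (l i : ℕ))).restrictScalars ℚ := by
      rw [hR, Submodule.span_le]
      rintro _ ⟨⟨j, l⟩, rfl⟩
      show ζ ^ (j : ℕ) * ∏ i, θ i ^ (l i : ℕ) ∈ Submodule.span K _
      have h2 : ζ ^ (j : ℕ) * ∏ i, θ i ^ (l i : ℕ) = (zK ^ (j : ℕ)) • ∏ i, θ i ^ (l i : ℕ) := by
        rw [Algebra.smul_def, map_pow]
        rfl
      rw [h2]
      exact Submodule.smul_mem _ _ (Submodule.subset_span ⟨l, rfl⟩)
    exact hle hx
  have h2 := finrank_le_of_span_eq_top (top_le_iff.1 hspan)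
  rw [Fintype.card_pi] at h2
  simpa using h2

end Pool.Agent.H52.REM
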