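import Pool.Agent.H26.REM.Targets

/-!
# (HAD), (GCH): Hadamard's inequality for Gram determinants, change of the family
-/

set_option autoImplicit false

namespace Pool.Agent.H52.REM

open Pool.Agent.H26.REM
open Finset InnerProductSpace

theorem pf_GCH : T_GCH := by
  intro E _ _ ι _ _ v A
  have h : Matrix.gram ℂ (fun i => ∑ l, A i l • v l) =
      A.map (starRingEnd ℂ) * Matrix.gram ℂ v * A.transpose := by
    ext i j
    rw [Matrix.gram_apply, Matrix.mul_apply, sum_inner]
    simp only [inner_sum, inner_smul_left, inner_smul_right, Matrix.mul_apply, Matrix.map_apply,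
      Matrix.gram_apply, Matrix.transpose_apply, Finset.sum_mul]
    rw [Finset.sum_comm]
    refine Finset.sum_congr rfl fun k _ => Finset.sum_congr rfl fun l _ => ?_
    ring
  unfold GD
  have h2 : (A.map (starRingEnd ℂ)).det = (starRingEnd ℂ) A.det := by
    rw [RingHom.map_det]
    rfl
  rw [h, Matrix.det_mul, Matrix.det_mul, Matrix.det_transpose, h2, norm_mul, norm_mul,
    RCLike.norm_conj]
  ring

/-- a family in a subspace -/
theorem gram_coe {E ι : Type} [NormedAddCommGroup E] [InnerProductSpace ℂ E]
    (U : Submodule ℂ E) (w : ι → U) :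
    Matrix.gram ℂ (fun i => (w i : E)) = Matrix.gram ℂ w := by
  ext i j
  rw [Matrix.gram_apply, Matrix.gram_apply, Submodule.coe_inner]

theorem pf_HAD : T_HAD := by
  intro E _ _ k v
  by_cases hv : LinearIndependent ℂ v
  · set U : Submodule ℂ E := Submodule.span ℂ (Set.range v) with hU
    let w : Fin k → U := fun i => ⟨v i, Submodule.subset_span ⟨i, rfl⟩⟩
    have hfr : Module.finrank ℂ U = Fintype.card (Fin k) := finrank_span_eq_card hv
    have hfd : FiniteDimensional ℂ U := FiniteDimensional.span_of_finite ℂ (Set.finite_range v)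
    set b := gramSchmidtOrthonormalBasis hfr w with hb
    have hgram : GD v = ‖(Matrix.gram ℂ w).det‖ := by
      unfold GD
      rw [← gram_coe U w]
    have hdet : (Matrix.of fun i j => b.repr (w j) i).det = ∏ i, inner ℂ (b i) (w i) := by
      rw [← gramSchmidtOrthonormalBasis_det hfr w]
      rfl
    rw [hgram, Matrix.gram_eq_conjTranspose_mul b w, Matrix.det_mul, Matrix.det_conjTranspose,
      norm_mul, norm_star, hdet, norm_prod, ← Finset.prod_mul_distrib]
    refine Finset.prod_le_prod (fun i _ => by positivity) fun i _ => ?_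
    have h1 : ‖inner ℂ (b i) (w i)‖ ≤ ‖v i‖ := by
      have h2 := norm_inner_le_norm (𝕜 := ℂ) (b i) (w i)
      rw [b.norm_eq_one, one_mul] at h2
      exact h2
    rw [← pow_two]
    exact pow_le_pow_left₀ (norm_nonneg _) h1 2
  · have h0 : (Matrix.gram ℂ v).det = 0 := by
      by_contra h
      exact hv (Matrix.linearIndependent_of_det_gram_ne_zero h)
    unfold GD
    rw [h0, norm_zero]
    exact Finset.prod_nonneg fun i _ => by positivity

end Pool.Agent.H52.REM
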