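import Pool.Agent.H52.REM.GQ
import Pool.Agent.H52.REM.BLE

/-!
# (LBD) the Gram determinants of lattices are bounded below
-/

set_option autoImplicit false

namespace Pool.Agent.H52.REM

open Pool.Agent.H26.REM
open Finset InnerProductSpace

theorem gd_smul (hGCH : T_GCH) {E : Type} [NormedAddCommGroup E] [InnerProductSpace ℂ E] {k : ℕ}
    (t : ℂ) (w : Fin k → E) : GD (fun i => t • w i) = (‖t‖ ^ 2) ^ k * GD w := by
  have h1 : (fun i => t • w i) =
      fun i => ∑ l, (t • (1 : Matrix (Fin k) (Fin k) ℂ)) i l • w l := by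
    funext i
    rw [Finset.sum_eq_single i]
    · rw [Matrix.smul_apply, Matrix.one_apply_eq, smul_eq_mul, mul_one]
    · intro l _ hl
      rw [Matrix.smul_apply, Matrix.one_apply_ne (Ne.symm hl), smul_zero, zero_smul]
    · intro h
      exact absurd (Finset.mem_univ i) h
  rw [h1, hGCH, Matrix.det_smul, Matrix.det_one, mul_one, norm_pow, Fintype.card_fin,
    ← pow_mul, ← pow_mul, mul_comm k 2]

theorem pf_LBD (hHAD : T_HAD) (hGCH : T_GCH) (hBEX : T_BEX) : T_LBD := by
  intro V E _ _ _ _ _ L j hj hL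
  classical
  obtain ⟨a, b, x, u, -, hl⟩ := hBEX V L hL ⊥ (Submodule.span ℚ (L : Set V)) bot_le le_rfl
  obtain ⟨hli, -, hlm⟩ := hl
  let l : Fin (a + b) → V := fun i => Sum.elim x u (finSumFinEquiv.symm i)
  have hlr : Set.range l = Set.range (Sum.elim x u) :=
    finSumFinEquiv.symm.surjective.range_comp _
  have hlC : LinearIndependent ℂ fun i => j (l i) :=
    hj _ l (hli.comp _ finSumFinEquiv.symm.injective)
  set W : Submodule ℂ E := Submodule.span ℂ (Set.range fun i => j (l i)) with hW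
  have hfd : FiniteDimensional ℂ W := FiniteDimensional.span_of_finite ℂ (Set.finite_range _)
  let bW : Module.Basis (Fin (a + b)) ℂ W := Module.Basis.span hlC
  have hbW : ∀ i, (bW i : E) = j (l i) := fun i => congrArg (fun y : W => (y : E)) (Module.Basis.span_apply hlC i)
  let S0 : W →ₗ[ℂ] EuclideanSpace ℂ (Fin (a + b)) :=
    bW.constr ℂ fun i => EuclideanSpace.single i (1 : ℂ)
  have hS0 : ∀ i, S0 (bW i) = EuclideanSpace.single i (1 : ℂ) := fun i => bW.constr_basis ℂ _ i
  let S1 : W →L[ℂ] EuclideanSpace ℂ (Fin (a + b)) := LinearMap.toContinuousLinearMap S0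
  set C : ℝ := max ‖S1‖ 1 with hC
  have hC1 : 1 ≤ C := le_max_right _ _
  have hC0 : 0 < C := by linarith
  let T : E →ₗ[ℂ] EuclideanSpace ℂ (Fin (a + b)) :=
    ((C : ℂ)⁻¹) • (S0 ∘ₗ (W.orthogonalProjectionOnto : E →ₗ[ℂ] W))
  have hTdef : ∀ y, T y = ((C : ℂ)⁻¹) • S0 (W.orthogonalProjectionOnto y) := fun y => rfl
  have hTn : ∀ y, ‖T y‖ ≤ ‖y‖ := by
    intro y
    rw [hTdef, norm_smul, norm_inv, Complex.norm_real, Real.norm_eq_abs, abs_of_pos hC0]
    have h1 : ‖S0 (W.orthogonalProjectionOnto y)‖ ≤ ‖S1‖ * ‖W.orthogonalProjectionOnto y‖ :=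
      S1.le_opNorm _
    have h2 : ‖W.orthogonalProjectionOnto y‖ ≤ ‖y‖ := W.norm_orthogonalProjectionOnto_apply_le y
    have h3 : ‖S0 (W.orthogonalProjectionOnto y)‖ ≤ C * ‖y‖ :=
      h1.trans (mul_le_mul (le_max_left _ _) h2 (norm_nonneg _) hC0.le)
    rw [inv_mul_le_iff₀ hC0]
    exact h3
  refine ⟨((C ^ 2)⁻¹) ^ Module.finrank ℚ V, by positivity, ?_⟩
  intro U k z hz
  obtain ⟨hzi, -, hzm⟩ := hz
  have hzL : ∀ i, z i ∈ L := fun i => ((hzm (z i)).1 (Submodule.subset_span ⟨i, rfl⟩)).1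
  have hex : ∀ i, ∃ c : Fin (a + b) → ℤ, ∑ m, c m • l m = z i := by
    intro i
    refine (Submodule.mem_span_range_iff_exists_fun ℤ).1 ?_
    rw [hlr]
    exact (hlm _).2 ⟨hzL i, Submodule.subset_span (hzL i)⟩
  choose N hN using hex
  have hjz : ∀ i, j (z i) = ∑ m, ((N i m : ℤ) : ℂ) • j (l m) := by
    intro i
    rw [← hN i, map_sum]
    refine Finset.sum_congr rfl fun m _ => ?_
    rw [map_zsmul, Int.cast_smul_eq_zsmul]
  let w : Fin k → EuclideanSpace ℂ (Fin (a + b)) := fun i =>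
    WithLp.toLp 2 fun m => ((N i m : ℤ) : ℂ)
  have hTz : ∀ i, T (j (z i)) = ((C : ℂ)⁻¹) • w i := by
    intro i
    rw [hTdef]
    congr 1
    have h1 : j (z i) = ((∑ m, ((N i m : ℤ) : ℂ) • bW m : W) : E) := by
      rw [hjz i, Submodule.coe_sum]
      refine Finset.sum_congr rfl fun m _ => ?_
      rw [Submodule.coe_smul, hbW]
    have h2 : W.orthogonalProjectionOnto (j (z i)) = ∑ m, ((N i m : ℤ) : ℂ) • bW m := by
      rw [h1]
      exact Submodule.orthogonalProjectionOnto_mem_subspace_eq_self _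
    rw [h2, map_sum]
    ext m
    rw [WithLp.ofLp_sum, Finset.sum_apply]
    rw [Finset.sum_eq_single m]
    · rw [map_smul, hS0]
      simp [w]
    · intro m' _ hm'
      rw [map_smul, hS0]
      simp [Ne.symm hm']
    · intro h
      exact absurd (Finset.mem_univ m) h
  -- the integral matrix
  have hwli : LinearIndependent ℂ w := by
    rw [Fintype.linearIndependent_iff]
    intro g hg
    have hjli : LinearIndependent ℂ fun i => j (z i) := hj k z hzi
    refine Fintype.linearIndependent_iff.1 hjli g ?_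
    have h1 : ∀ m, ∑ i, g i * ((N i m : ℤ) : ℂ) = 0 := by
      intro m
      have h2 := congrArg (fun y : EuclideanSpace ℂ (Fin (a + b)) => y.ofLp m) hg
      simp only [WithLp.ofLp_sum, Finset.sum_apply] at h2
      exact h2
    have h3 : ∀ i, g i • j (z i) = ∑ m, (g i * ((N i m : ℤ) : ℂ)) • j (l m) := by
      intro i
      rw [hjz i, Finset.smul_sum]
      refine Finset.sum_congr rfl fun m _ => ?_
      rw [smul_smul]
    rw [Finset.sum_congr rfl fun i _ => h3 i, Finset.sum_comm]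
    refine Finset.sum_eq_zero fun m _ => ?_
    rw [← Finset.sum_smul, h1 m, zero_smul]
  have hGw : 1 ≤ GD w := by
    set M : Matrix (Fin k) (Fin (a + b)) ℤ := Matrix.of N with hM
    have h1 : Matrix.gram ℂ w = (M * M.transpose).map (Int.cast : ℤ → ℂ) := by
      ext i i'
      rw [Matrix.gram_apply, Matrix.map_apply, Matrix.mul_apply]
      rw [PiLp.inner_apply]
      push_cast
      refine Finset.sum_congr rfl fun m _ => ?_
      show inner ℂ (((N i m : ℤ) : ℂ)) (((N i' m : ℤ) : ℂ)) = (N i m : ℂ) * (N i' m : ℂ)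
      rw [RCLike.inner_apply, mul_comm]
      congr 1
      exact map_intCast (starRingEnd ℂ) _
    have h2 : (M * M.transpose).det ≠ 0 := by
      intro h0
      refine Matrix.det_gram_ne_zero_iff_linearIndependent.2 hwli ?_
      rw [h1]
      have h3 : ((M * M.transpose).map (Int.cast : ℤ → ℂ)).det =
          (((M * M.transpose).det : ℤ) : ℂ) := ((Int.castRingHom ℂ).map_det _).symm
      rw [h3, h0, Int.cast_zero]
    unfold GD
    rw [h1]
    exact one_le_norm_det _ h2
  have h1 : GD (fun i => T (j (z i))) ≤ GD fun i => j (z i) :=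
    gd_map_le hHAD hGCH (fun i => j (z i)) (hj k z hzi) T hTn
  refine le_trans ?_ h1
  have h2 : (fun i => T (j (z i))) = fun i => ((C : ℂ)⁻¹) • w i := funext hTz
  rw [h2, gd_smul hGCH, norm_inv, Complex.norm_real, Real.norm_eq_abs, abs_of_pos hC0]
  have hk : k ≤ Module.finrank ℚ V := by
    have := hzi.fintype_card_le_finrank
    rwa [Fintype.card_fin] at this
  have h3 : (C ^ 2)⁻¹ ≤ 1 := inv_le_one_of_one_le₀ (one_le_pow₀ hC1)
  have h4 : ((C ^ 2)⁻¹) ^ Module.finrank ℚ V ≤ ((C ^ 2)⁻¹) ^ k :=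
    pow_le_pow_of_le_one (by positivity) h3 hk
  refine h4.trans ?_
  rw [inv_pow C 2]
  exact le_mul_of_one_le_right (by positivity) hGw

end Pool.Agent.H52.REM
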