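import Pool.Agent.H26.REM.Targets

/-!
# (SML) small relations between the radicals
-/

set_option autoImplicit false

namespace Pool.Agent.H52.REM

open Pool.Agent.H26.REM
open NumberField Height Finset Polynomial

theorem log_two_le {q : ℚ} (h0 : q ≠ 0) (h1 : q ≠ 1) (h2 : q ≠ -1) :
    Real.log 2 ≤ logHeight₁ q := by
  rw [Rat.logHeight₁_eq_log_max]
  apply Real.log_le_log (by norm_num)
  have h3 : 2 ≤ max q.num.natAbs q.den := by
    by_contra hlt
    push Not at hlt
    have hd : q.den = 1 := by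
      have h4 : q.den < 2 := lt_of_le_of_lt (le_max_right _ _) hlt
      have h5 := q.den_pos
      omega
    have hn : q.num.natAbs < 2 := lt_of_le_of_lt (le_max_left _ _) hlt
    have hq : (q.num : ℚ) = q := by
      conv_rhs => rw [← Rat.num_div_den q, hd]
      simp
    have hcases : q.num = 0 ∨ q.num = 1 ∨ q.num = -1 := by omega
    rcases hcases with h | h | h <;> rw [h] at hq
    · exact h0 (by rw [← hq]; norm_num)
    · exact h1 (by rw [← hq]; norm_num)
    · exact h2 (by rw [← hq]; norm_num)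
  exact_mod_cast h3

theorem pf_SML : T_SML := by
  intro M _ _ r a N θ ha hN hcop hθ b t ht hrel i hbi
  classical
  have hθ0 : ∀ j, θ j ≠ 0 := by
    intro j h
    have h1 := hθ j
    rw [h, zero_pow (hN j).ne'] at h1
    exact (ha j).1 (by exact_mod_cast h1.symm)
  set G : ℕ := Int.gcd (b i) (N i : ℤ) with hG
  have hG0 : 0 < G := Int.gcd_pos_of_ne_zero_left _ hbi
  obtain ⟨b', hb'⟩ : (G : ℤ) ∣ b i := Int.gcd_dvd_left _ _
  obtain ⟨d, hd⟩ : G ∣ N i := by
    have h := Int.gcd_dvd_right (b i) (N i : ℤ)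
    exact_mod_cast h
  have hd0 : 0 < d := by
    rcases Nat.eq_zero_or_pos d with h | h
    · rw [h, mul_zero] at hd
      exact absurd hd (hN i).ne'
    · exact h
  have hcop1 : IsCoprime b' (d : ℤ) := by
    have h := Int.gcd_eq_gcd_ab (b i) (N i : ℤ)
    rw [← hG] at h
    refine ⟨Int.gcdA (b i) (N i : ℤ), Int.gcdB (b i) (N i : ℤ), ?_⟩
    have hG' : (G : ℤ) ≠ 0 := by exact_mod_cast hG0.ne'
    apply mul_left_cancel₀ hG'
    have h2 : (N i : ℤ) = G * d := by exact_mod_cast hd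
    rw [mul_one]
    conv_rhs => rw [h]
    conv_rhs => rw [hb', h2]
    rw [← hb', ← h2]
    ring_nf
    rw [hb', h2]
    ring
  set P : ℕ := ∏ j ∈ Finset.univ.erase i, N j with hP
  have hcop2 : IsCoprime (P : ℤ) (d : ℤ) := by
    have h1 : Nat.Coprime P (N i) := by
      refine Nat.Coprime.prod_left fun j hj => ?_
      exact hcop j i (Finset.ne_of_mem_erase hj)
    have h2 : Nat.Coprime P d := Nat.Coprime.coprime_dvd_right ⟨G, by rw [hd, mul_comm]⟩ h1
    exact Nat.isCoprime_iff_coprime.2 h2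
  obtain ⟨U, V, hUV⟩ := IsCoprime.mul_left hcop1 hcop2
  set x : M := θ i ^ G with hx
  have hx0 : x ≠ 0 := pow_ne_zero _ (hθ0 i)
  have hxd : x ^ d = ((a i : ℚ) : M) := by
    rw [hx, ← pow_mul, ← hd]
    exact hθ i
  have hdvd : ∀ j ∈ Finset.univ.erase i, ∃ p : ℕ, P = N j * p := fun j hj =>
    Finset.dvd_prod_of_mem N hj
  have hrat : ∀ j, j ∈ Finset.univ.erase i → ∃ y : ℚ, y ≠ 0 ∧ (θ j ^ b j) ^ P = (y : M) := by
    intro j hj
    obtain ⟨p, hp⟩ := hdvd j hj
    refine ⟨(a j) ^ (b j * p), zpow_ne_zero _ (ha j).1, ?_⟩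
    rw [hp]
    push_cast
    rw [← hθ j, ← zpow_natCast, ← zpow_mul, ← zpow_natCast (θ j), ← zpow_mul]
    congr 1
    push_cast
    ring
  have hex : ∀ j, ∃ y : ℚ, j ∈ Finset.univ.erase i → y ≠ 0 ∧ (θ j ^ b j) ^ P = (y : M) := by
    intro j
    by_cases hj : j ∈ Finset.univ.erase i
    · obtain ⟨y, hy⟩ := hrat j hj
      exact ⟨y, fun _ => hy⟩
    · exact ⟨0, fun h => absurd h hj⟩
  choose y hy using hex
  set y' : ℚ := ∏ j ∈ Finset.univ.erase i, y j with hy'
  have hy'0 : y' ≠ 0 := Finset.prod_ne_zero_iff.2 fun j hj => (hy j hj).1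
  have hprod : (∏ j, θ j ^ b j) ^ P = x ^ (b' * P) * (y' : M) := by
    rw [← Finset.mul_prod_erase Finset.univ _ (Finset.mem_univ i), mul_pow, ← Finset.prod_pow]
    congr 1
    · rw [hx, ← zpow_natCast, ← zpow_mul, ← zpow_natCast (θ i), ← zpow_mul, hb']
      congr 1
      ring
    · rw [hy', Rat.cast_prod]
      exact Finset.prod_congr rfl fun j hj => (hy j hj).2
  set ω : M := x ^ (b' * P) * (y' : M) with hω
  have hy'M : (y' : M) ≠ 0 := by exact_mod_cast hy'0
  have hωt : ω ^ t = 1 := by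
    rw [← hprod, ← pow_mul, mul_comm, pow_mul, hrel, one_pow]
  set q : ℚ := (y' ^ (-U)) * (a i) ^ V with hq
  have hxq : x = ω ^ U * (q : M) := by
    have h1 : x ^ (b' * (P : ℤ)) = ω * ((y' : M))⁻¹ := by
      rw [hω, mul_assoc, mul_inv_cancel₀ hy'M, mul_one]
    have h2 : x = x ^ (U * (b' * (P : ℤ)) + V * (d : ℤ)) := by rw [hUV, zpow_one]
    have h3 : x ^ (U * (b' * (P : ℤ))) = (ω * ((y' : M))⁻¹) ^ U := by
      rw [← h1, ← zpow_mul]
      congr 1
      ring
    have h4 : x ^ (V * (d : ℤ)) = ((a i : ℚ) : M) ^ V := by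
      rw [← hxd, ← zpow_natCast, ← zpow_mul]
      congr 1
      ring
    conv_lhs => rw [h2]
    rw [zpow_add₀ hx0, h3, h4, mul_zpow, inv_zpow, hq]
    push_cast
    rw [zpow_neg]
    ring
  have hω0 : ω ≠ 0 := mul_ne_zero (zpow_ne_zero _ hx0) hy'M
  have hq0 : q ≠ 0 := mul_ne_zero (zpow_ne_zero _ hy'0) (zpow_ne_zero _ (ha i).1)
  have hai : ((a i : ℚ) : M) = (ω ^ U) ^ d * ((q ^ d : ℚ) : M) := by
    rw [← hxd]
    conv_lhs => rw [hxq]
    rw [mul_pow]
    push_cast
    ring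
  set z : ℚ := a i / q ^ d with hz
  have hzω : (z : M) = (ω ^ U) ^ d := by
    have hqd : ((q ^ d : ℚ) : M) ≠ 0 := by exact_mod_cast pow_ne_zero d hq0
    rw [hz, Rat.cast_div, hai, mul_div_assoc, div_self hqd, mul_one]
  have hzt : z ^ t = 1 := by
    have h1 : ((z ^ t : ℚ) : M) = 1 := by
      rw [Rat.cast_pow, hzω, ← pow_mul, mul_comm d t, pow_mul, ← zpow_natCast (ω ^ U) t,
        ← zpow_mul, mul_comm U, zpow_mul, zpow_natCast, hωt, one_zpow, one_pow]
    exact_mod_cast h1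
  have hzabs : |z| = 1 := by
    have h1 : |z| ^ t = 1 := by rw [← abs_pow, hzt, abs_one]
    exact (pow_eq_one_iff_of_nonneg (abs_nonneg z) ht.ne').1 h1
  have hqd : q ^ d ≠ 0 := pow_ne_zero d hq0
  have haz : a i = z * q ^ d := by
    rw [hz, div_mul_cancel₀ _ hqd]
  have hzc : z = 1 ∨ z = -1 := by
    rcases abs_eq (zero_le_one' ℚ) |>.1 hzabs with h | h
    · exact Or.inl h
    · exact Or.inr h
  have hH : logHeight₁ (a i) = d * logHeight₁ q := by
    rcases hzc with h | h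
    · rw [haz, h, one_mul, logHeight₁_pow]
    · rw [haz, h, neg_one_mul, logHeight₁_neg, logHeight₁_pow]
  have hq1 : q ≠ 1 := by
    intro h
    rw [h, one_pow, mul_one] at haz
    rcases hzc with h' | h'
    · exact (ha i).2.1 (haz.trans h')
    · exact (ha i).2.2 (haz.trans h')
  have hq2 : q ≠ -1 := by
    intro h
    rw [h] at haz
    rcases neg_one_pow_eq_or ℚ d with h1 | h1 <;> rcases hzc with h' | h' <;>
      rw [h1, h'] at haz
    · exact (ha i).2.1 (by rw [haz]; norm_num)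
    · exact (ha i).2.2 (by rw [haz]; norm_num)
    · exact (ha i).2.2 (by rw [haz]; norm_num)
    · exact (ha i).2.1 (by rw [haz]; norm_num)
  have hlog := log_two_le hq0 hq1 hq2
  have hGb : (G : ℝ) ≤ |(b i : ℝ)| := by
    have h1 : (G : ℤ) ≤ |b i| := Int.le_of_dvd (abs_pos.2 hbi) ((dvd_abs _ _).2 ⟨b', hb'⟩)
    have h2 : ((G : ℤ) : ℝ) ≤ ((|b i| : ℤ) : ℝ) := by exact_mod_cast h1
    push_cast at h2
    exact h2
  have hNi : (N i : ℝ) = G * d := by exact_mod_cast hd
  rw [hNi, hH]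
  have hl2 : 0 ≤ Real.log 2 := Real.log_nonneg (by norm_num)
  calc (G : ℝ) * d * Real.log 2 = G * (d * Real.log 2) := by ring
    _ ≤ |(b i : ℝ)| * (d * Real.log 2) := mul_le_mul_of_nonneg_right hGb (by positivity)
    _ ≤ |(b i : ℝ)| * (d * logHeight₁ q) := by
        refine mul_le_mul_of_nonneg_left ?_ (abs_nonneg _)
        exact mul_le_mul_of_nonneg_left hlog (by positivity)

end Pool.Agent.H52.REM
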