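import Pool.Agent.H26.REM.Targets4

/-!
# (EMK) the vectors of the weighted conjugates of all components
-/

set_option autoImplicit false

namespace Pool.Agent.H52.REM

open Pool.Agent.H26.REM
open NumberField Height Finset Polynomial

/-- rational vectors which are linearly independent over `ℚ` are independent over `ℂ` -/
theorem rows_li {ι : Type} [Fintype ι] {n : ℕ} (v : Fin n → ι → ℚ) (hv : LinearIndependent ℚ v) :
    LinearIndependent ℂ fun i => fun l => ((v i l : ℚ) : ℂ) := by
  classical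
  set G : Matrix (Fin n) (Fin n) ℚ := Matrix.of fun i j => ∑ l, v i l * v j l with hG
  have hdet : G.det ≠ 0 := by
    intro h0
    obtain ⟨c, hc, hcG⟩ := Matrix.exists_vecMul_eq_zero_iff.2 h0
    have h1 : ∀ j, ∑ i, c i * ∑ l, v i l * v j l = 0 := fun j => congrFun hcG j
    have h2 : ∑ l, (∑ i, c i * v i l) ^ 2 = 0 := by
      have h3 : ∑ j, c j * ∑ i, c i * ∑ l, v i l * v j l = 0 :=
        Finset.sum_eq_zero fun j _ => by rw [h1 j, mul_zero]
      rw [← h3]
      simp only [Finset.mul_sum, pow_two, Finset.sum_mul]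
      rw [Finset.sum_comm]
      refine Finset.sum_congr rfl fun j _ => ?_
      rw [Finset.sum_comm]
      refine Finset.sum_congr rfl fun i _ => Finset.sum_congr rfl fun l _ => ?_
      ring
    have h4 := (Finset.sum_eq_zero_iff_of_nonneg fun l _ => sq_nonneg _).1 h2
    have h5 : ∑ i, c i • v i = 0 := by
      funext l
      rw [Finset.sum_apply]
      have h6 := h4 l (Finset.mem_univ l)
      have h7 : ∑ i, c i * v i l = 0 := by
        exact pow_eq_zero_iff (two_ne_zero) |>.1 h6
      exact h7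
    exact hc (funext (Fintype.linearIndependent_iff.1 hv c h5))
  rw [Fintype.linearIndependent_iff]
  intro g hg
  have h1 : ∀ l, ∑ i, g i * ((v i l : ℚ) : ℂ) = 0 := by
    intro l
    have h2 := congrFun hg l
    rw [Finset.sum_apply] at h2
    exact h2
  have h2 : Matrix.vecMul g (G.map (Rat.cast : ℚ → ℂ)) = 0 := by
    funext j
    show ∑ i, g i * (((∑ l, v i l * v j l : ℚ)) : ℂ) = 0
    have h3 : ∀ i, g i * (((∑ l, v i l * v j l : ℚ)) : ℂ) =
        ∑ l, (g i * ((v i l : ℚ) : ℂ)) * ((v j l : ℚ) : ℂ) := by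
      intro i
      push_cast
      rw [Finset.mul_sum]
      refine Finset.sum_congr rfl fun l _ => ?_
      ring
    rw [Finset.sum_congr rfl fun i _ => h3 i, Finset.sum_comm]
    refine Finset.sum_eq_zero fun l _ => ?_
    rw [← Finset.sum_mul, h1 l, zero_mul]
  have h3 : (G.map (Rat.cast : ℚ → ℂ)).det ≠ 0 := by
    have h4 : (G.map (Rat.cast : ℚ → ℂ)).det = ((G.det : ℚ) : ℂ) :=
      ((Rat.castHom ℂ).map_det G).symm
    rw [h4]
    exact_mod_cast hdet
  intro i
  exact congrFun (Matrix.eq_zero_of_vecMul_eq_zero h3 h2) i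

theorem isEm_of_basis {V E ι : Type} [AddCommGroup V] [Module ℚ V] [NormedAddCommGroup E]
    [InnerProductSpace ℂ E] [Fintype ι] (j : V →+ E) (b : Module.Basis ι ℚ V)
    (hb : LinearIndependent ℂ fun i => j (b i)) : IsEm j := by
  intro k z hz
  have hv : LinearIndependent ℚ fun i => fun l => b.repr (z i) l := by
    rw [Fintype.linearIndependent_iff] at hz ⊢
    intro g hg
    refine hz g ?_
    apply b.repr.injective
    rw [map_zero]
    ext l
    rw [map_sum, Finsupp.finsetSum_apply]
    have h1 := congrFun hg l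
    rw [Finset.sum_apply] at h1
    simp only [map_smul, Finsupp.smul_apply]
    exact h1
  have hv' := rows_li (fun i => fun l => b.repr (z i) l) hv
  rw [Fintype.linearIndependent_iff]
  intro g hg
  have hjz : ∀ i, j (z i) = ∑ l, ((b.repr (z i) l : ℚ) : ℂ) • j (b l) := by
    intro i
    conv_lhs => rw [← b.sum_repr (z i)]
    rw [map_sum]
    refine Finset.sum_congr rfl fun l _ => ?_
    exact map_ratCast_smul j ℚ ℂ (b.repr (z i) l) (b l)
  have h1 : ∑ l, (∑ i, g i * ((b.repr (z i) l : ℚ) : ℂ)) • j (b l) = 0 := by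
    rw [← hg]
    simp only [hjz, Finset.smul_sum, Finset.sum_smul, smul_smul]
    rw [Finset.sum_comm]
  have h2 := Fintype.linearIndependent_iff.1 hb _ h1
  refine Fintype.linearIndependent_iff.1 hv' g ?_
  funext l
  rw [Finset.sum_apply]
  exact h2 l

theorem pf_EMK (hEMB : T_EMB) : T_EMK := by
  intro M _ _ k w hw
  classical
  let bM : Module.Basis (Fin (Module.finrank ℚ M)) ℚ M := Module.finBasis ℚ M
  refine isEm_of_basis (vecK M w) (Pi.basis fun _ : Fin k => bM) ?_
  rw [Fintype.linearIndependent_iff]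
  intro g hg
  have hblock : ∀ b : Fin k, ∀ i, g ⟨b, i⟩ = 0 := by
    intro b
    have hli : LinearIndependent ℂ fun i => vec M (w b) (bM i) :=
      (hEMB M (w b) (w b) (hw b) (hw b)).1 _ _ bM.linearIndependent
    refine Fintype.linearIndependent_iff.1 hli (fun i => g ⟨b, i⟩) ?_
    ext s
    have h1 := congrArg (fun y : EuclideanSpace ℂ (Fin k × (M →+* ℂ)) => y.ofLp (b, s)) hg
    simp only [WithLp.ofLp_sum, Finset.sum_apply] at h1
    rw [Fintype.sum_sigma] at h1
    rw [WithLp.ofLp_sum, Finset.sum_apply]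
    rw [Finset.sum_eq_single b] at h1
    · refine Eq.trans (Finset.sum_congr rfl fun i _ => ?_) h1
      show g ⟨b, i⟩ * ((w b s : ℂ) * s (bM i)) =
        g ⟨b, i⟩ * ((w b s : ℂ) * s ((Pi.basis fun _ : Fin k => bM) ⟨b, i⟩ b))
      rw [Pi.basis_apply, Pi.single_eq_same]
    · intro b' _ hb'
      refine Finset.sum_eq_zero fun i _ => ?_
      show g ⟨b', i⟩ * ((w b s : ℂ) * s ((Pi.basis fun _ : Fin k => bM) ⟨b', i⟩ b)) = 0
      rw [Pi.basis_apply, Pi.single_eq_of_ne (Ne.symm hb'), map_zero, mul_zero, mul_zero]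
    · intro h
      exact absurd (Finset.mem_univ b) h
  rintro ⟨b, i⟩
  exact hblock b i

end Pool.Agent.H52.REM
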