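import Pool.Agent.H26.REM.Targets

/-!
# (PIE) the radicals in the level field
-/

set_option autoImplicit false

namespace Pool.Agent.H52.REM

open Pool.Agent.H26.REM
open NumberField Height Finset Polynomial

/-- the powers of `q` which divide an integer of valuation one -/
theorem dvd_of_val_one {q : ℕ} [hq : Fact q.Prime] {A : ℤ} (hA : A ≠ 0)
    (hv : padicValRat q (A : ℚ) = 1) : (q : ℤ) ∣ A ∧ ¬ (q : ℤ) ^ 2 ∣ A := by
  have h1 : padicValInt q A = 1 := by
    rw [padicValRat.of_int] at hv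
    exact_mod_cast hv
  constructor
  · have h2 := (padicValInt_dvd_iff (p := q) 1 A).2 (Or.inr (by omega))
    rwa [pow_one] at h2
  · intro h2
    rcases (padicValInt_dvd_iff (p := q) 2 A).1 h2 with h3 | h3
    · exact hA h3
    · omega

theorem not_dvd_of_val {q : ℕ} [hq : Fact q.Prime] {x : ℚ} (_ : x ≠ 0)
    (hv : 0 ≤ padicValRat q x) : ¬ q ∣ x.den := by
  intro hd
  have hn : ¬ (q : ℤ) ∣ x.num := by
    intro h
    have h1 : q ∣ x.num.natAbs := Int.natCast_dvd.1 h
    have h2 := Nat.dvd_gcd h1 hd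
    rw [x.reduced.gcd_eq_one] at h2
    exact hq.out.one_lt.ne' (Nat.dvd_one.1 h2)
  have h1 : padicValInt q x.num = 0 := padicValInt.eq_zero_of_not_dvd hn
  have h2 : 1 ≤ padicValNat q x.den := one_le_padicValNat_of_dvd x.den_ne_zero hd
  have h3 : padicValRat q x = (padicValInt q x.num : ℤ) - (padicValNat q x.den : ℤ) := rfl
  rw [h3, h1] at hv
  omega

theorem pf_PIE : T_PIE := by
  intro M _ _ x n q k θ hx hq hk hQn hn hθ hgood
  have hfact : Fact q.Prime := ⟨hq⟩
  set Q : ℕ := q ^ k with hQ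
  have hQ0 : 0 < Q := pow_pos hq.pos k
  obtain ⟨s, hs⟩ := hQn
  set θ1 : M := θ ^ s with hθ1
  have hθ1Q : θ1 ^ Q = (x : M) := by
    rw [hθ1, ← pow_mul, mul_comm, ← hs]
    exact hθ
  have hθm : θ ∈ IntermediateField.adjoin ℚ {θ} := IntermediateField.mem_adjoin_simple_self ℚ θ
  have hθ1m : θ1 ∈ IntermediateField.adjoin ℚ {θ} := pow_mem hθm s
  have hxM : (x : M) ≠ 0 := by exact_mod_cast hx
  have hθ10 : θ1 ≠ 0 := by
    intro h
    rw [h, zero_pow hQ0.ne'] at hθ1Q
    exact hxM hθ1Q.symm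
  have hratm : ∀ y : ℚ, (y : M) ∈ IntermediateField.adjoin ℚ {θ} := by
    intro y
    simp
  rcases hgood with hv | ⟨hv, hW⟩
  · -- the valuation is prime to `q`
    set v : ℤ := padicValRat q x with hvdef
    have hcop : IsCoprime v (Q : ℤ) := by
      rw [hQ]
      push_cast
      refine IsCoprime.pow_right ?_
      refine IsCoprime.symm ?_
      exact (Nat.prime_iff_prime_int.1 hq).coprime_iff_not_dvd.2 hv
    obtain ⟨u, w, huw⟩ := hcop
    have hqQ : (q : ℚ) ≠ 0 := by exact_mod_cast hq.ne_zero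
    set A0 : ℚ := x ^ u * (q : ℚ) ^ (w * Q) with hA0
    have hA00 : A0 ≠ 0 := mul_ne_zero (zpow_ne_zero _ hx) (zpow_ne_zero _ hqQ)
    have hvA0 : padicValRat q A0 = 1 := by
      rw [hA0, padicValRat.mul (zpow_ne_zero _ hx) (zpow_ne_zero _ hqQ), padicValRat.zpow,
        padicValRat.zpow, padicValRat.self hq.one_lt, mul_one]
      exact huw
    have hcd : ¬ q ∣ A0.den := not_dvd_of_val hA00 (by rw [hvA0]; norm_num)
    obtain ⟨Q', hQ'⟩ : ∃ Q', Q = Q' + 1 := ⟨Q - 1, by omega⟩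
    set A : ℤ := A0.num * (A0.den : ℤ) ^ Q' with hA
    have hAq : (A : ℚ) = A0 * (A0.den : ℚ) ^ Q := by
      rw [hA, hQ']
      push_cast
      conv_rhs => rw [← Rat.num_div_den A0]
      have hd0 : (A0.den : ℚ) ≠ 0 := by exact_mod_cast A0.den_ne_zero
      have h1 : ((A0.num : ℚ) / (A0.den : ℚ)).den = A0.den := by rw [Rat.num_div_den]
      rw [h1, pow_succ]
      field_simp
    have hdQ : (A0.den : ℚ) ≠ 0 := by exact_mod_cast A0.den_ne_zero
    have hAne : A ≠ 0 := by
      have h1 : (A : ℚ) ≠ 0 := by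
        rw [hAq]
        exact mul_ne_zero hA00 (pow_ne_zero _ hdQ)
      exact_mod_cast h1
    have hvd : padicValRat q (A0.den : ℚ) = 0 := by
      rw [padicValRat.of_nat]
      exact_mod_cast padicValNat.eq_zero_of_not_dvd hcd
    have hvA : padicValRat q (A : ℚ) = 1 := by
      rw [hAq, padicValRat.mul hA00 (pow_ne_zero _ hdQ), padicValRat.pow, hvd, mul_zero,
        add_zero]
      exact hvA0
    refine ⟨A, ((A0.den : ℚ) : M) * (θ1 ^ u * ((q : ℚ) : M) ^ w), ?_, ?_,
      Or.inl (dvd_of_val_one hAne hvA)⟩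
    · exact mul_mem (hratm _) (mul_mem (zpow_mem hθ1m u) (zpow_mem (hratm _) w))
    · have h1 : ((A : ℚ) : M) = (A : M) := by push_cast; rfl
      rw [← h1, hAq, hA0]
      push_cast
      rw [mul_pow, mul_pow, ← hθ1Q]
      have h2 : (θ1 ^ u) ^ Q = (θ1 ^ Q) ^ u := by
        rw [← zpow_natCast, ← zpow_mul, ← zpow_natCast θ1, ← zpow_mul, mul_comm]
      have h3 : (((q : ℕ) : M) ^ w) ^ Q = ((q : ℕ) : M) ^ (w * (Q : ℤ)) := by
        rw [← zpow_natCast, ← zpow_mul]
      rw [h2, h3]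
      ring
  · -- units
    have hd : ¬ q ∣ x.den := not_dvd_of_val hx (by rw [hv])
    have hnum : ¬ (q : ℤ) ∣ x.num := by
      intro h
      have h1 : 1 ≤ padicValInt q x.num := by
        have h2 := (padicValInt_dvd_iff (p := q) 1 x.num).1 (by rwa [pow_one])
        rcases h2 with h3 | h3
        · exact absurd (Rat.num_eq_zero.1 h3) hx
        · exact h3
      have h2 : padicValNat q x.den = 0 := padicValNat.eq_zero_of_not_dvd hd
      have h3 : padicValRat q x = (padicValInt q x.num : ℤ) - (padicValNat q x.den : ℤ) := rfl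
      rw [h3, h2] at hv
      omega
    obtain ⟨Q', hQ'⟩ : ∃ Q', Q = Q' + 1 := ⟨Q - 1, by omega⟩
    set A : ℤ := x.num * (x.den : ℤ) ^ Q' with hA
    have hqp : Prime (q : ℤ) := Nat.prime_iff_prime_int.1 hq
    have hdz : ¬ (q : ℤ) ∣ (x.den : ℤ) := by
      intro h
      exact hd (by exact_mod_cast h)
    refine ⟨A, ((x.den : ℚ) : M) * θ1, mul_mem (hratm _) hθ1m, ?_, Or.inr ⟨?_, ?_⟩⟩
    · rw [mul_pow, hθ1Q]
      have h1 : (A : ℚ) = (x.den : ℚ) ^ Q * x := by
        rw [hA, hQ']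
        push_cast
        have hd0 : (x.den : ℚ) ≠ 0 := by exact_mod_cast x.den_ne_zero
        have h2 : x * (x.den : ℚ) = x.num := Rat.mul_den_eq_num x
        rw [pow_succ, mul_assoc, mul_comm (x.den : ℚ) x, h2]
        ring
      have h2 : ((A : ℚ) : M) = (A : M) := by push_cast; rfl
      rw [← h2, h1]
      push_cast
      ring
    · intro h
      rcases hqp.dvd_or_dvd h with h1 | h1
      · exact hnum h1
      · exact hdz (hqp.dvd_of_dvd_pow h1)
    · intro h
      apply hW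
      have hcop : Nat.Coprime x.den (q ^ 2) :=
        Nat.Coprime.pow_right 2 (Nat.Coprime.symm ((Nat.Prime.coprime_iff_not_dvd hq).2 hd))
      have hE : (x.den : ℤ) ^ (Q * (q - 1)) ≡ 1 [ZMOD ((q : ℤ) ^ 2)] := by
        have h1 := Nat.ModEq.pow_totient hcop
        rw [Nat.totient_prime_pow hq (by norm_num)] at h1
        obtain ⟨k', hk'⟩ : ∃ k', k = k' + 1 := ⟨k - 1, by omega⟩
        have h2 : Q * (q - 1) = (q ^ (2 - 1) * (q - 1)) * q ^ k' := by
          rw [hQ, hk', pow_succ]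
          norm_num
          ring
        rw [h2, pow_mul]
        have h3 : ((x.den : ℤ) ^ (q ^ (2 - 1) * (q - 1))) ≡ 1 [ZMOD ((q : ℤ) ^ 2)] := by
          have h4 := (Int.natCast_modEq_iff).2 h1
          push_cast at h4
          exact h4
        have h5 := h3.pow (q ^ k')
        rwa [one_pow] at h5
      have hA1 : A ^ (q - 1) ≡ 1 [ZMOD ((q : ℤ) ^ 2)] := by
        refine (Int.modEq_iff_dvd.2 ?_)
        have := (dvd_neg (a := (q : ℤ) ^ 2)).2 h
        rwa [neg_sub] at this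
      have h6 : x.num ^ (q - 1) * (x.den : ℤ) ^ (Q * (q - 1)) =
          A ^ (q - 1) * (x.den : ℤ) ^ (q - 1) := by
        rw [hA, hQ', mul_pow, ← pow_mul, add_mul, one_mul, pow_add]
        ring
      have h7 : x.num ^ (q - 1) ≡ (x.den : ℤ) ^ (q - 1) [ZMOD ((q : ℤ) ^ 2)] := by
        have h8 := (hE.mul_left (x.num ^ (q - 1))).symm
        rw [mul_one, h6] at h8
        have h9 := hA1.mul_right ((x.den : ℤ) ^ (q - 1))
        rw [one_mul] at h9
        exact h8.trans h9
      exact Int.modEq_iff_dvd.1 h7.symm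

end Pool.Agent.H52.REM
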